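import Pool.Agent.Q178.SP.Basic

/-! Uniformly sharp closed convex sets: in dimension at least two only the whole space and the
singletons; they are all polyhedral exactly in the finite-dimensional spaces. -/

open scoped InnerProductSpace
open Set Metric

namespace Pool.Agent.Results.MP_c48ca6_an.SharpClassified

open Pool.Agent.Q178.SP

theorem result (H : Type*) [NormedAddCommGroup H] [InnerProductSpace ℝ H] [CompleteSpace H] :
    ((∀ A : Set H, A.Nonempty → IsClosed A → Convex ℝ A → UniformlySharp A → Polyhedral A) ↔
      FiniteDimensional ℝ H) ∧
    (1 < Module.rank ℝ H → ∀ A : Set H, A.Nonempty → IsClosed A → Convex ℝ A →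
      (UniformlySharp A ↔ A = univ ∨ ∃ x, A = {x})) := by
  refine ⟨⟨fun h => ?_, fun h A hne hc hconv hs => finite_dim hne hc hconv hs⟩,
    fun hH A hne hc hconv => classify hH hne hc hconv⟩
  by_contra hH
  exact not_poly_singleton hH 0
    (h {0} (singleton_nonempty 0) isClosed_singleton (convex_singleton 0) (singleton_sharp 0))

end Pool.Agent.Results.MP_c48ca6_an.SharpClassified
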